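import Pool.Agent.TH314.SM.Low
import Pool.Agent.TH867.SM.Rough

/-! Triples whose smallest member has a small radical: the counts (helper314). -/

set_option autoImplicit false

namespace Pool.Agent.TH314.SM

open Finset
open Pool.Agent.TH867.SR

/-- **the count by height** -/
theorem main_upper (ε : ℝ) (hε : 0 < ε) : ∃ D : ℝ, 0 < D ∧ ∀ X H A : ℝ, 1 ≤ X → 1 ≤ H → 1 ≤ A →
    ∀ F : Finset (Fin 3 → ℕ), (∀ t ∈ F, Tr t ∧ rr t 0 + rr t 1 + rr t 2 ≤ Real.log X ∧
      rr t 0 ≤ Real.log A ∧ Real.log (t 2) ≤ H) →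
    (F.card : ℝ) ≤ D * H * X ^ ε * (A * X) ^ ((1 : ℝ) / 2) := by
  obtain ⟨D1, hD1, L0, hL0, hmid⟩ := mid_upper ε hε
  obtain ⟨D2, hD2, htriv⟩ := trivial_upper ε hε
  obtain ⟨D3, hD3, hbig⟩ := Pool.Agent.TH867.SR.main_upper ε hε
  obtain ⟨E, hE⟩ : ∃ E, E = Real.exp ((1 + ε) * L0) := ⟨_, rfl⟩
  have hE0 : 0 < E := by rw [hE]; exact Real.exp_pos _
  refine ⟨D1 + D2 * (E + 3) + D3, by positivity, fun X H A hX hH hA F hF => ?_⟩
  have hX0 : 0 < X := by linarith
  have hH0 : 0 < H := by linarith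
  have hA0 : 0 < A := by linarith
  have hlX : 0 ≤ Real.log X := Real.log_nonneg hX
  have hlA : 0 ≤ Real.log A := Real.log_nonneg hA
  have hlH : 0 ≤ Real.log H := Real.log_nonneg hH
  have hlH1 : Real.log H ≤ H - 1 := Real.log_le_sub_one_of_pos hH0
  have hXε : 1 ≤ X ^ ε := Real.one_le_rpow hX hε.le
  have hAXe : (A * X) ^ ((1 : ℝ) / 2) = Real.exp ((Real.log X + Real.log A) / 2) := by
    rw [Real.rpow_def_of_pos (by positivity), Real.log_mul hA0.ne' hX0.ne']
    congr 1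
    ring
  have hXexp : ∀ s : ℝ, X ^ s = Real.exp (s * Real.log X) := fun s => by
    rw [Real.rpow_def_of_pos hX0, mul_comm]
  have hAX1 : 1 ≤ (A * X) ^ ((1 : ℝ) / 2) := by
    rw [hAXe]; exact Real.one_le_exp (by linarith)
  obtain ⟨R, hR⟩ : ∃ R, R = H * X ^ ε * (A * X) ^ ((1 : ℝ) / 2) := ⟨_, rfl⟩
  have hR0 : 0 < R := by rw [hR]; positivity
  have goal : ∀ T : ℝ, (F.card : ℝ) ≤ T * R → T ≤ D1 + D2 * (E + 3) + D3 →
      (F.card : ℝ) ≤ (D1 + D2 * (E + 3) + D3) * H * X ^ ε * (A * X) ^ ((1 : ℝ) / 2) := by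
    intro T h1 h2
    refine (h1.trans (mul_le_mul_of_nonneg_right h2 hR0.le)).trans (le_of_eq ?_)
    rw [hR]; ring
  have hp1 : 0 < D2 * (E + 3) := by positivity
  have hp2 : 0 < D2 * E := by positivity
  have htr : (F.card : ℝ) ≤ D2 * X ^ (1 + ε) * (1 + Real.log H) :=
    htriv X H hX hH F fun t ht => ⟨(hF t ht).1, (hF t ht).2.1, (hF t ht).2.2.2⟩
  by_cases hc : L0 ≤ Real.log X
  · by_cases hc3 : Real.log A ≤ Real.log X / 3
    · by_cases hc2 : H ≤ X
      · have h1 := hmid X H hX hc hH hc2 (Real.log A) hlA hc3 F hF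
        refine goal D1 (h1.trans (le_of_eq ?_)) (by linarith)
        rw [hR, hAXe, hXexp, Real.exp_add]
        ring
      · push Not at hc2
        refine goal (D2 * 3) (htr.trans ?_) (by linarith)
        have e1 : X ^ (1 + ε) = X ^ ε * (X ^ ((1 : ℝ) / 2) * X ^ ((1 : ℝ) / 2)) := by
          rw [← Real.rpow_add hX0, ← Real.rpow_add hX0]
          congr 1
          ring
        have e2 : X ^ ((1 : ℝ) / 2) ≤ H ^ ((1 : ℝ) / 2) :=
          Real.rpow_le_rpow hX0.le hc2.le (by norm_num)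
        have e2' : X ^ ((1 : ℝ) / 2) ≤ (A * X) ^ ((1 : ℝ) / 2) :=
          Real.rpow_le_rpow hX0.le (by nlinarith) (by norm_num)
        have e3 : Real.log H ≤ 2 * H ^ ((1 : ℝ) / 2) := by
          have := Real.log_le_rpow_div hH0.le (ε := 1 / 2) (by norm_num)
          linarith
        have e4 : 1 ≤ H ^ ((1 : ℝ) / 2) := Real.one_le_rpow hH (by norm_num)
        have e5 : H ^ ((1 : ℝ) / 2) * H ^ ((1 : ℝ) / 2) = H := by
          rw [← Real.rpow_add hH0]
          norm_num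
        have e6 : X ^ ((1 : ℝ) / 2) * X ^ ((1 : ℝ) / 2) ≤
            (A * X) ^ ((1 : ℝ) / 2) * H ^ ((1 : ℝ) / 2) :=
          mul_le_mul e2' e2 (by positivity) (by positivity)
        rw [e1]
        calc D2 * (X ^ ε * (X ^ ((1 : ℝ) / 2) * X ^ ((1 : ℝ) / 2))) * (1 + Real.log H) ≤
            D2 * (X ^ ε * ((A * X) ^ ((1 : ℝ) / 2) * H ^ ((1 : ℝ) / 2))) *
              (3 * H ^ ((1 : ℝ) / 2)) := by
              refine mul_le_mul (mul_le_mul_of_nonneg_left
                (mul_le_mul_of_nonneg_left e6 (by positivity)) hD2.le) (by linarith)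
                (by linarith) (by positivity)
          _ = D2 * 3 * ((H ^ ((1 : ℝ) / 2) * H ^ ((1 : ℝ) / 2)) * X ^ ε *
                (A * X) ^ ((1 : ℝ) / 2)) := by ring
          _ = _ := by rw [e5, hR]
    · push Not at hc3
      have h1 := hbig X H hX hH F fun t ht => ⟨(hF t ht).1, (hF t ht).2.1, (hF t ht).2.2.2⟩
      refine goal D3 (h1.trans ?_) (by linarith)
      have e1 : X ^ (2 / 3 + ε) ≤ X ^ ε * (A * X) ^ ((1 : ℝ) / 2) := by
        rw [hAXe, hXexp, hXexp, ← Real.exp_add]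
        refine Real.exp_le_exp.2 ?_
        linarith
      calc D3 * X ^ (2 / 3 + ε) * H ≤ D3 * (X ^ ε * (A * X) ^ ((1 : ℝ) / 2)) * H :=
            mul_le_mul_of_nonneg_right (mul_le_mul_of_nonneg_left e1 hD3.le) hH0.le
        _ = _ := by rw [hR]; ring
  · push Not at hc
    refine goal (D2 * E) (htr.trans ?_) (by linarith)
    have e1 : X ^ (1 + ε) ≤ E := by
      rw [hXexp, hE]
      refine Real.exp_le_exp.2 (mul_le_mul_of_nonneg_left hc.le (by linarith))
    have e2 : 1 + Real.log H ≤ R := by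
      have : H ≤ R := by
        rw [hR]
        have : 1 ≤ X ^ ε * (A * X) ^ ((1 : ℝ) / 2) := one_le_mul_of_one_le_of_one_le hXε hAX1
        nlinarith
      linarith
    exact mul_le_mul (mul_le_mul_of_nonneg_left e1 hD2.le) e2 (by linarith) (by positivity)

/-- a light set of small product, from the small primes of a member `t j` and all the primes of
the other two members -/
theorem rough_choice {k : ℕ} (hk : 1 ≤ k) {δ X y K : ℝ} (hδ : 2 / (k : ℝ) ≤ δ)
    (hX : 1 ≤ X) (hy : 1 ≤ y) {t : Fin 3 → ℕ} (h : Tr t) (h2 : 0 < Real.log (t 2))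
    (hrad : rr t 0 + rr t 1 + rr t 2 ≤ Real.log X) (j : Fin 3)
    (hK : rr t 0 + rr t 1 + rr t 2 - rr t j ≤ K)
    (hro : ∑ q ∈ (t j).primeFactors.filter (fun q : ℕ => y < q),
      ((t j).factorization q : ℝ) * Real.log q ≤ (1 - δ) * Real.log (t 2)) :
    ∃ S : Finset ℕ, (∀ q ∈ S, q.Prime) ∧ Light k S t ∧
      ((∏ q ∈ S, q : ℕ) : ℝ) ≤ Real.exp K * X ^ (2 / (k * δ)) * y := by
  classical
  have hk0 : (0 : ℝ) < k := by exact_mod_cast hk
  have hX0 : 0 < X := by linarith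
  have hy0 : 0 < y := by linarith
  have hLX : 0 ≤ Real.log X := Real.log_nonneg hX
  have h1k : 0 < 1 / (k : ℝ) := by positivity
  have h2k : 2 / (k : ℝ) = 2 * (1 / k) := by ring
  rw [h2k] at hδ
  have hδ0 : 0 < δ := by linarith
  obtain ⟨P, hP⟩ : ∃ P, P = (N3 t).primeFactors := ⟨_, rfl⟩
  obtain ⟨Pj, hPj⟩ : ∃ Pj, Pj = (t j).primeFactors := ⟨_, rfl⟩
  have hsub : Pj ⊆ P := by rw [hPj, hP]; exact Pool.Agent.TH867.SM.primeFactors_N3_sub t h j
  have hPp : ∀ q ∈ P, q.Prime := fun q hq => by rw [hP] at hq; exact Nat.prime_of_mem_primeFactors hq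
  obtain ⟨w, hw⟩ : ∃ w : ℕ → ℝ, w = fun q => (vv t q : ℝ) * Real.log q := ⟨_, rfl⟩
  have hlogN : ∑ q ∈ P, w q = Real.log (N3 t) := by
    rw [log_eq_sum' (y := N3 t) h.N3_pos.ne', hP, hw]
    rfl
  have hwj : ∀ q ∈ Pj, w q = ((t j).factorization q : ℝ) * Real.log q := by
    intro q hq
    rw [hw]
    simp only
    rw [h.vv_eq (hPp q (hsub hq)) (Nat.dvd_of_mem_primeFactors (by rw [← hPj]; exact hq))]
  have hlogj : ∑ q ∈ Pj, w q = Real.log (t j) := by
    rw [log_eq_sum' (h.pos' j).ne', ← hPj]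
    exact Finset.sum_congr rfl hwj
  have hcostj : ∑ q ∈ Pj, Real.log q = rr t j := by rw [hPj]; rfl
  have hcost : ∑ q ∈ P, Real.log q = rr t 0 + rr t 1 + rr t 2 := by rw [hP]; exact rr_sum h
  -- the part outside the member
  have e1 : ∑ q ∈ P \ Pj, w q = Real.log (N3 t) - Real.log (t j) := by
    have := Finset.sum_sdiff (f := w) hsub
    rw [hlogN, hlogj] at this
    linarith
  have e2 : ∑ q ∈ P \ Pj, Real.log (q : ℝ) = rr t 0 + rr t 1 + rr t 2 - rr t j := by
    have := Finset.sum_sdiff (f := fun q : ℕ => Real.log (q : ℝ)) hsub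
    rw [hcost, hcostj] at this
    linarith
  obtain ⟨τ, hτ⟩ : ∃ τ : ℝ, τ = Real.log (t j) - (1 - 1 / (k : ℝ)) * Real.log (t 2) := ⟨_, rfl⟩
  -- the set `T`
  obtain ⟨T, hT, hTw, hTc⟩ : ∃ T ⊆ Pj, τ ≤ ∑ q ∈ T, w q ∧
      ∑ q ∈ T, Real.log (q : ℝ) ≤ 2 / (k * δ) * Real.log X + Real.log y := by
    rcases le_or_gt τ 0 with h0 | h0
    · refine ⟨∅, Finset.empty_subset _, by simpa using h0, ?_⟩
      rw [Finset.sum_empty]
      have := Real.log_nonneg hy
      positivity
    · obtain ⟨Q, hQ⟩ : ∃ Q, Q = Pj.filter (fun q : ℕ => ¬ y < q) := ⟨_, rfl⟩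
      have hQsub : Q ⊆ Pj := by rw [hQ]; exact Finset.filter_subset _ _
      have hQw : Real.log (t j) - (1 - δ) * Real.log (t 2) ≤ ∑ q ∈ Q, w q := by
        have e3 := Finset.sum_filter_add_sum_filter_not Pj (fun q : ℕ => y < q) w
        rw [hlogj, ← hQ] at e3
        have e4 : ∑ q ∈ Pj.filter (fun q : ℕ => y < q), w q ≤ (1 - δ) * Real.log (t 2) := by
          rw [hPj] at hwj ⊢
          refine le_trans (le_of_eq ?_) hro
          exact Finset.sum_congr rfl fun q hq => hwj q (Finset.mem_filter.1 hq).1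
        linarith
      have hτle : τ ≤ 1 / k * Real.log (t 2) := by
        have : Real.log (t j) ≤ Real.log (t 2) :=
          Real.log_le_log (by exact_mod_cast h.pos' j) (by exact_mod_cast h.le2 j)
        rw [hτ]
        nlinarith
      obtain ⟨W, hW⟩ : ∃ W, W = ∑ q ∈ Q, w q := ⟨_, rfl⟩
      rw [← hW] at hQw
      have hWge : δ / 2 * Real.log (t 2) ≤ W := by
        have a1 : (1 - 1 / (k : ℝ)) * Real.log (t 2) < Real.log (t j) := by linarith
        have a2 : (1 - 1 / (k : ℝ)) * Real.log (t 2) - (1 - δ) * Real.log (t 2) =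
          (δ - 1 / k) * Real.log (t 2) := by ring
        have a3 : δ / 2 * Real.log (t 2) ≤ (δ - 1 / k) * Real.log (t 2) :=
          mul_le_mul_of_nonneg_right (by linarith) h2.le
        linarith
      have hW0 : 0 < W := lt_of_lt_of_le (by positivity) hWge
      have hκW : τ ≤ W := by
        have : 1 / k * Real.log (t 2) ≤ δ / 2 * Real.log (t 2) :=
          mul_le_mul_of_nonneg_right (by linarith) h2.le
        linarith
      have hcostQ : ∑ q ∈ Q, Real.log (q : ℝ) ≤ Real.log X := by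
        have a1 : ∑ q ∈ Q, Real.log (q : ℝ) ≤ ∑ q ∈ P, Real.log (q : ℝ) :=
          Finset.sum_le_sum_of_subset_of_nonneg (hQsub.trans hsub)
            fun q hq _ => log_prime_nonneg (hPp q hq)
        rw [hcost] at a1
        linarith
      obtain ⟨T, hT, hTw, hTc⟩ := greedy w (fun q : ℕ => Real.log (q : ℝ)) (κ := τ)
        (ρ := Real.log X / W) (M := Real.log y) h0.le (by positivity) (Real.log_nonneg hy) Q
        (fun q hq => by
          rw [hQ, Finset.mem_filter, not_lt] at hq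
          exact Real.log_le_log (by exact_mod_cast (hPp q (hsub hq.1)).pos) hq.2)
        (by rw [← hW, div_mul_cancel₀ _ hW0.ne']; exact hcostQ)
        (by rw [← hW]; exact hκW)
      refine ⟨T, hT.trans hQsub, hTw, hTc.trans ?_⟩
      have : Real.log X / W * τ ≤ 2 / (k * δ) * Real.log X := by
        rw [div_mul_eq_mul_div, div_le_iff₀ hW0]
        calc Real.log X * τ ≤ Real.log X * (1 / k * Real.log (t 2)) :=
              mul_le_mul_of_nonneg_left hτle hLX
          _ = 2 / (k * δ) * Real.log X * (δ / 2 * Real.log (t 2)) := by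
              field_simp
          _ ≤ 2 / (k * δ) * Real.log X * W :=
              mul_le_mul_of_nonneg_left hWge (by positivity)
      linarith
  have hdisj : Disjoint (P \ Pj) T :=
    (Finset.sdiff_disjoint).mono_right hT
  have hSp : ∀ q ∈ (P \ Pj) ∪ T, q.Prime := by
    intro q hq
    rcases Finset.mem_union.1 hq with h3 | h3
    · exact hPp q (Finset.mem_sdiff.1 h3).1
    · exact hPp q (hsub (hT h3))
  refine ⟨(P \ Pj) ∪ T, hSp, ?_, ?_⟩
  · rw [Light]
    have e3 : ∑ q ∈ (P \ Pj) ∪ T, (vv t q : ℝ) * Real.log q = ∑ q ∈ (P \ Pj) ∪ T, w q := by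
      rw [hw]
    rw [e3, Finset.sum_union hdisj, e1]
    linarith
  · have hpos : 0 < ∏ q ∈ (P \ Pj) ∪ T, q := Finset.prod_pos fun q hq => (hSp q hq).pos
    rw [← Real.log_le_log_iff (by exact_mod_cast hpos) (by positivity),
      Real.log_mul (by positivity) hy0.ne', Real.log_mul (by positivity) (by positivity),
      Real.log_exp, Real.log_rpow hX0, log_prod_primes hSp,
      Finset.sum_union hdisj, e2]
    linarith

/-- the count of any height for `y ≤ X`, `Z ≤ X` -/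
theorem rough_aux (ε δ : ℝ) (hε : 0 < ε) (hδ : 0 < δ) : ∃ D : ℝ, 0 < D ∧ ∀ X y Z : ℝ, 1 ≤ X →
    1 ≤ y → y ≤ X → 1 ≤ Z → Z ≤ X → ∀ F : Finset (Fin 3 → ℕ), (∀ t ∈ F, Tr t ∧
      rr t 0 + rr t 1 + rr t 2 ≤ Real.log X ∧
      ∃ j, rr t 0 + rr t 1 + rr t 2 - rr t j ≤ Real.log Z ∧
      ∑ q ∈ (t j).primeFactors.filter (fun q : ℕ => y < q),
        ((t j).factorization q : ℝ) * Real.log q ≤ (1 - δ) * Real.log (t 2)) →
    (F.card : ℝ) ≤ D * y * Z * X ^ ε := by
  classical
  obtain ⟨k, hk⟩ : ∃ k : ℕ, 8 / ε + 8 / (δ * ε) + 2 / δ ≤ k := exists_nat_ge _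
  have hp1 : 0 < 8 / ε := by positivity
  have hp2 : 0 < 8 / (δ * ε) := by positivity
  have hp3 : 0 < 2 / δ := by positivity
  have hk0 : (0 : ℝ) < k := by linarith
  have hk1 : 1 ≤ k := by
    have : 0 < k := by exact_mod_cast hk0
    omega
  have hk1' : (1 : ℝ) ≤ k := by exact_mod_cast hk1
  have hkε : 8 / (k : ℝ) ≤ ε := by
    have : 8 / ε ≤ k := by linarith
    rw [div_le_iff₀ hε] at this
    rw [div_le_iff₀ hk0]
    linarith
  have hkδ : 2 / (k : ℝ) ≤ δ := by
    have : 2 / δ ≤ k := by linarith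
    rw [div_le_iff₀ hδ] at this
    rw [div_le_iff₀ hk0]
    linarith
  have hkδε : 8 / (k * δ) ≤ ε := by
    have : 8 / (δ * ε) ≤ k := by linarith
    rw [div_le_iff₀ (by positivity)] at this
    rw [div_le_iff₀ (by positivity)]
    linarith
  have h1k : 0 < 1 / (k : ℝ) := by positivity
  obtain ⟨D, hD, h⟩ := light_total hk1
  obtain ⟨D2, hD2, h2⟩ := Pool.Agent.TH867.SM.log_pow_le (1 / (k : ℝ)) h1k
  refine ⟨D * D2, by positivity, fun X y Z hX hy hXy hZ hZX F hF => ?_⟩
  have hX0 : 0 < X := by linarith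
  have hy0 : 0 < y := by linarith
  have hZ0 : 0 < Z := by linarith
  obtain ⟨M, hMe⟩ : ∃ M, M = Z * X ^ (2 / (k * δ)) * y := ⟨_, rfl⟩
  have hXp : 1 ≤ X ^ (2 / (k * δ)) := Real.one_le_rpow hX (by positivity)
  have hM : 1 ≤ M := by
    rw [hMe]
    exact one_le_mul_of_one_le_of_one_le (one_le_mul_of_one_le_of_one_le hZ hXp) hy
  obtain ⟨H, hH⟩ : ∃ H, H = Real.exp (3000 * (1 + Real.log X) ^ 6) := ⟨_, rfl⟩
  have hlH : Real.log H = 3000 * (1 + Real.log X) ^ 6 := by rw [hH, Real.log_exp]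
  have hlX : 0 ≤ Real.log X := Real.log_nonneg hX
  have hH1 : 1 ≤ H := by
    rw [hH]
    exact Real.one_le_exp (by positivity)
  have h1 := h M H hM hH1 F (fun t ht => by
    obtain ⟨a1, a2, j, a3, a4⟩ := hF t ht
    refine ⟨a1, by rw [hH]; exact Pool.Agent.TH867.SM.height_le a1 hX a2, fun hbig => ?_⟩
    obtain ⟨S, s1, s2, s3⟩ := rough_choice hk1 hkδ hX hy a1 (by linarith) a2 j a3 a4
    rw [Real.exp_log hZ0] at s3
    exact ⟨S, s1, s2, by rw [hMe]; exact s3⟩)
  rw [hlH] at h1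
  have h3 := h2 X hX
  have hMk : M ^ (1 + 1 / (k : ℝ)) ≤ y * Z * X ^ (7 / 8 * ε) := by
    have e0 : M ^ (1 + 1 / (k : ℝ)) = M * M ^ (1 / (k : ℝ)) := by
      rw [Real.rpow_add (by linarith), Real.rpow_one]
    have e2 : 2 / (k * δ) ≤ 1 := by
      have : 2 / (k * δ) = 2 / k / δ := by rw [div_div]
      rw [this, div_le_one hδ]
      exact hkδ
    have e1 : M ≤ X ^ (3 : ℝ) := by
      have e5 : X ^ (2 / (k * δ)) ≤ X := by
        calc X ^ (2 / (k * δ)) ≤ X ^ (1 : ℝ) := Real.rpow_le_rpow_of_exponent_le hX e2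
          _ = X := Real.rpow_one X
      rw [hMe]
      calc Z * X ^ (2 / (k * δ)) * y ≤ X * X * X :=
            mul_le_mul (mul_le_mul hZX e5 (by positivity) hX0.le) hXy hy0.le
              (by positivity)
        _ = X ^ (3 : ℝ) := by
            rw [show (3 : ℝ) = ((3 : ℕ) : ℝ) by norm_num, Real.rpow_natCast]
            ring
    have e3 : M ^ (1 / (k : ℝ)) ≤ X ^ (4 / (k : ℝ)) := by
      calc M ^ (1 / (k : ℝ)) ≤ (X ^ (3 : ℝ)) ^ (1 / (k : ℝ)) :=
            Real.rpow_le_rpow (by linarith) e1 h1k.le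
        _ = X ^ (3 / (k : ℝ)) := by
            rw [← Real.rpow_mul hX0.le]
            congr 1
            ring
        _ ≤ X ^ (4 / (k : ℝ)) := by
            refine Real.rpow_le_rpow_of_exponent_le hX ?_
            have : 3 / (k : ℝ) = 3 * (1 / k) := by ring
            have : 4 / (k : ℝ) = 4 * (1 / k) := by ring
            linarith
    rw [e0]
    calc M * M ^ (1 / (k : ℝ)) ≤ (Z * X ^ (2 / (k * δ)) * y) * X ^ (4 / (k : ℝ)) := by
          rw [hMe] at e3 ⊢
          exact mul_le_mul_of_nonneg_left e3 (by positivity)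
      _ = y * Z * (X ^ (2 / (k * δ)) * X ^ (4 / (k : ℝ))) := by ring
      _ = y * Z * X ^ (2 / (k * δ) + 4 / (k : ℝ)) := by rw [← Real.rpow_add hX0]
      _ ≤ y * Z * X ^ (7 / 8 * ε) := by
          refine mul_le_mul_of_nonneg_left (Real.rpow_le_rpow_of_exponent_le hX ?_)
            (by positivity)
          have e4 : 2 / (k * δ) = 1 / 4 * (8 / (k * δ)) := by ring
          have e5 : 4 / (k : ℝ) = 1 / 2 * (8 / k) := by ring
          rw [e4, e5]
          linarith
  calc (F.card : ℝ) ≤ D * M ^ (1 + 1 / (k : ℝ)) * (1 + 3000 * (1 + Real.log X) ^ 6) := h1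
    _ ≤ D * (y * Z * X ^ (7 / 8 * ε)) * (D2 * X ^ (1 / (k : ℝ))) := by
        refine mul_le_mul (mul_le_mul_of_nonneg_left hMk hD.le) h3 (by positivity) (by positivity)
    _ = D * D2 * y * Z * (X ^ (7 / 8 * ε) * X ^ (1 / (k : ℝ))) := by ring
    _ = D * D2 * y * Z * X ^ (7 / 8 * ε + 1 / (k : ℝ)) := by rw [← Real.rpow_add hX0]
    _ ≤ D * D2 * y * Z * X ^ ε := by
        refine mul_le_mul_of_nonneg_left (Real.rpow_le_rpow_of_exponent_le hX ?_) (by positivity)
        have e5 : 1 / (k : ℝ) = 1 / 8 * (8 / k) := by ring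
        rw [e5]
        linarith

/-- **the count of any height** -/
theorem rough_upper (ε δ : ℝ) (hε : 0 < ε) (hδ : 0 < δ) : ∃ D : ℝ, 0 < D ∧ ∀ X y Z : ℝ, 1 ≤ X →
    1 ≤ y → 1 ≤ Z → ∀ F : Finset (Fin 3 → ℕ), (∀ t ∈ F, Tr t ∧
      rr t 0 + rr t 1 + rr t 2 ≤ Real.log X ∧
      ∃ j, rr t 0 + rr t 1 + rr t 2 - rr t j ≤ Real.log Z ∧
      ∑ q ∈ (t j).primeFactors.filter (fun q : ℕ => y < q),
        ((t j).factorization q : ℝ) * Real.log q ≤ (1 - δ) * Real.log (t 2)) →
    (F.card : ℝ) ≤ D * y * Z * X ^ ε := by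
  obtain ⟨D, hD, h⟩ := rough_aux ε δ hε hδ
  refine ⟨D, hD, fun X y Z hX hy hZ F hF => ?_⟩
  have hX0 : 0 < X := by linarith
  obtain ⟨y', hy'⟩ : ∃ y', y' = min y X := ⟨_, rfl⟩
  obtain ⟨Z', hZ'⟩ : ∃ Z', Z' = min Z X := ⟨_, rfl⟩
  have hy1 : 1 ≤ y' := by rw [hy']; exact le_min hy hX
  have hZ1 : 1 ≤ Z' := by rw [hZ']; exact le_min hZ hX
  have hyy : y' ≤ y := by rw [hy']; exact min_le_left _ _
  have hZZ : Z' ≤ Z := by rw [hZ']; exact min_le_left _ _
  have h1 := h X y' Z' hX hy1 (by rw [hy']; exact min_le_right _ _) hZ1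
    (by rw [hZ']; exact min_le_right _ _) F fun t ht => by
      obtain ⟨a1, a2, j, a3, a4⟩ := hF t ht
      refine ⟨a1, a2, j, ?_, ?_⟩
      · have hXl : rr t 0 + rr t 1 + rr t 2 - rr t j ≤ Real.log X := by
          have := rr_nonneg t j
          linarith
        rw [hZ']
        rcases le_total Z X with h2 | h2
        · rw [min_eq_left h2]; exact a3
        · rw [min_eq_right h2]; exact hXl
      · rcases le_total y X with h2 | h2
        · rw [hy', min_eq_left h2]; exact a4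
        · rw [hy', min_eq_right h2]
          have e1 : (t j).primeFactors.filter (fun q : ℕ => X < q) = ∅ := by
            rw [Finset.filter_eq_empty_iff]
            intro q hq
            rw [not_lt]
            have hq0 : (0 : ℝ) < q := by
              exact_mod_cast (Nat.prime_of_mem_primeFactors hq).pos
            refine (Real.log_le_log_iff hq0 hX0).1 (le_trans ?_ a2)
            rw [← rr_sum a1]
            exact Finset.single_le_sum (f := fun q : ℕ => Real.log (q : ℝ))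
              (fun q hq => log_prime_nonneg (Nat.prime_of_mem_primeFactors hq))
              (Pool.Agent.TH867.SM.primeFactors_N3_sub t a1 j hq)
          rw [e1, Finset.sum_empty]
          refine le_trans ?_ a4
          exact Finset.sum_nonneg fun q hq => mul_nonneg (Nat.cast_nonneg _)
            (log_prime_nonneg (Nat.prime_of_mem_primeFactors (Finset.mem_filter.1 hq).1))
  refine h1.trans (mul_le_mul_of_nonneg_right (mul_le_mul (mul_le_mul_of_nonneg_left hyy hD.le)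
    hZZ (by linarith) ?_) (by positivity))
  have : 0 ≤ y := by linarith
  positivity

end Pool.Agent.TH314.SM
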