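import Pool.Agent.TH867.SR.Main

/-! The count of abc triples of one scale with a good set of primes of product at most `M`
(general `M`; helper314, from the count of helper867). -/

set_option autoImplicit false

namespace Pool.Agent.TH314.SM

open Finset
open Pool.Agent.TH867.SR

/-- the sum over the products of the prescribed primes -/
theorem count {k : ℕ} (hk : 3 ≤ k) {X l : ℝ} (hl : 2 * (k : ℝ) ≤ l) {n K E M : ℕ}
    (hn : 0 < n) (hMX : (M : ℝ) ≤ X)
    (F : Finset (Fin 3 → ℕ)) (hF : ∀ t ∈ F, Tr t ∧ Scale k l t)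
    (hch : ∀ t ∈ F, ∃ S : Finset ℕ, (∀ q ∈ S, q.Prime) ∧ Good k X l S t ∧ ∏ q ∈ S, q ≤ M)
    (hK : ∀ t ∈ F, t 2 ≤ 2 ^ K)
    (hE : ∀ t ∈ F, ∀ p, vv t p ≤ E)
    (hcond : ∀ m : ℕ, 1 ≤ m → (m : ℝ) ≤ X →
      8 * m * (n * K + 1) ^ (2 * m.primeFactors.card) < 2 ^ n)
    (hbad : ∀ e : ℕ, e ≤ E → Real.log e + n * Real.log ⌊X⌋₊ < 3 / 4 * (l / k)) :
    F.card ≤ ∑ m ∈ Finset.Icc 1 M,
      2 ^ (18 * k * (m.primeFactors.card + 1)) *
        (1 + 27 * (2 ^ m.primeFactors.card * ((E + 1) * n))) := by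
  classical
  have hk1 : 1 ≤ k := by omega
  -- the pieces
  set FL : ℕ → Finset (Fin 3 → ℕ) := fun m => F.filter fun t => Light k m.primeFactors t with hFL
  set FP : ℕ → Fin 3 × Fin 3 × Fin 3 → Finset ℕ → ℕ → Finset (Fin 3 → ℕ) := fun m σ Q e =>
    F.filter fun t => σ.1 ≠ σ.2.1 ∧ σ.2.1 ≠ σ.2.2 ∧ σ.1 ≠ σ.2.2 ∧
      ∃ p, InP k m.primeFactors Q σ.1 σ.2.1 σ.2.2 e X l t p with hFP
  set G : ℕ → Finset (Fin 3 → ℕ) := fun m => FL m ∪
    (Finset.univ : Finset (Fin 3 × Fin 3 × Fin 3)).biUnion (fun σ =>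
      m.primeFactors.powerset.biUnion (fun Q => (Finset.range (E + 1)).biUnion (fun e =>
        FP m σ Q e))) with hG
  have hsub : F ⊆ (Finset.Icc 1 M).biUnion G := by
    intro t ht
    obtain ⟨S, hS, hgood, hmM⟩ := hch t ht
    have hpf : (∏ q ∈ S, q).primeFactors = S := Nat.primeFactors_prod hS
    have hmpos : 0 < ∏ q ∈ S, q := Finset.prod_pos fun q hq => (hS q hq).pos
    rw [Finset.mem_biUnion]
    refine ⟨∏ q ∈ S, q, Finset.mem_Icc.2 ⟨hmpos, hmM⟩, ?_⟩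
    rcases hgood with hg | ⟨A, B, C, Q, e, p, hAB, hBC, hAC, hP⟩
    · refine Finset.mem_union_left _ (Finset.mem_filter.2 ⟨ht, ?_⟩)
      rw [hpf]
      exact hg
    · refine Finset.mem_union_right _ ?_
      rw [Finset.mem_biUnion]
      refine ⟨(A, B, C), Finset.mem_univ _, ?_⟩
      rw [Finset.mem_biUnion]
      refine ⟨Q, ?_, ?_⟩
      · rw [hpf, Finset.mem_powerset]
        exact hP.QS
      · rw [Finset.mem_biUnion]
        refine ⟨e, Finset.mem_range.2 (Nat.lt_succ_of_le ?_), Finset.mem_filter.2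
          ⟨ht, hAB, hBC, hAC, p, ?_⟩⟩
        · rw [← hP.ve]
          exact hE t ht p
        · rw [hpf]
          exact hP
  refine (Finset.card_le_card hsub).trans (Finset.card_biUnion_le.trans
    (Finset.sum_le_sum fun m hm => ?_))
  obtain ⟨hm1, hm2⟩ := Finset.mem_Icc.1 hm
  have hmX : (m : ℝ) ≤ X := by
    have h1 : (m : ℝ) ≤ (M : ℝ) := by exact_mod_cast hm2
    exact h1.trans hMX
  have hSp : ∀ q ∈ m.primeFactors, q.Prime := fun q hq => Nat.prime_of_mem_primeFactors hq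
  have c1 : (FL m).card ≤ 2 ^ (18 * k * (m.primeFactors.card + 1)) :=
    card_light hk1 hSp hl _ fun t ht => by
      obtain ⟨h1, h2⟩ := Finset.mem_filter.1 ht
      exact ⟨(hF t h1).1, (hF t h1).2, h2⟩
  have c2 : ∀ σ Q e, e ∈ Finset.range (E + 1) → (FP m σ Q e).card ≤
      2 ^ (18 * k * (m.primeFactors.card + 1)) * n := by
    intro σ Q e he
    by_cases hσ : σ.1 ≠ σ.2.1 ∧ σ.2.1 ≠ σ.2.2 ∧ σ.1 ≠ σ.2.2
    · obtain ⟨hAB, hBC, hAC⟩ := hσ
      refine card_P hk1 (S := m.primeFactors) (Q := Q) (X := X) (e := e) (K := K) hAB hBC hAC hSp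
        hl hn _ ?_ ?_ ?_ (hbad e (Nat.lt_succ_iff.1 (Finset.mem_range.1 he)))
      · intro t ht
        exact (Finset.mem_filter.1 ht).2.2.2.2
      · intro t ht
        exact hK t (Finset.mem_filter.1 ht).1
      · refine lt_of_le_of_lt (Nat.mul_le_mul_right _ (Nat.mul_le_mul_left _ ?_))
          (hcond m hm1 hmX)
        exact Nat.le_of_dvd hm1 (Nat.prod_primeFactors_dvd m)
    · have : FP m σ Q e = ∅ := by
        rw [Finset.eq_empty_iff_forall_notMem]
        intro t ht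
        obtain ⟨_, a1, a2, a3, _⟩ := Finset.mem_filter.1 ht
        exact hσ ⟨a1, a2, a3⟩
      rw [this, Finset.card_empty]
      exact Nat.zero_le _
  calc (G m).card ≤ (FL m).card + ((Finset.univ : Finset (Fin 3 × Fin 3 × Fin 3)).biUnion (fun σ =>
      m.primeFactors.powerset.biUnion (fun Q => (Finset.range (E + 1)).biUnion (fun e =>
        FP m σ Q e)))).card := Finset.card_union_le _ _
    _ ≤ 2 ^ (18 * k * (m.primeFactors.card + 1)) +
        27 * (2 ^ m.primeFactors.card * ((E + 1) *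
          (2 ^ (18 * k * (m.primeFactors.card + 1)) * n))) := by
        refine Nat.add_le_add c1 ?_
        refine (Finset.card_biUnion_le_card_mul _ _ (2 ^ m.primeFactors.card * ((E + 1) *
          (2 ^ (18 * k * (m.primeFactors.card + 1)) * n))) ?_).trans (le_of_eq ?_)
        · intro σ _
          refine (Finset.card_biUnion_le_card_mul _ _ ((E + 1) *
            (2 ^ (18 * k * (m.primeFactors.card + 1)) * n)) ?_).trans (le_of_eq ?_)
          · intro Q _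
            refine (Finset.card_biUnion_le_card_mul _ _
              (2 ^ (18 * k * (m.primeFactors.card + 1)) * n) ?_).trans (le_of_eq ?_)
            · intro e he
              exact c2 σ Q e he
            · rw [Finset.card_range]
          · rw [Finset.card_powerset]
        · rw [Finset.card_univ]
          rfl
    _ = _ := by ring

/-- the bound at one scale, for a good set of primes of product at most `M` -/
theorem scale_count {k : ℕ} (hk : 3 ≤ k) {η : ℝ} (hη : 0 < η) : ∃ D : ℝ, 0 < D ∧ ∃ L0 : ℝ,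
    3 ≤ L0 ∧ ∀ X : ℝ, 1 ≤ X → L0 ≤ Real.log X → ∀ l : ℝ, Real.log X ^ (2 + η) ≤ l → l ≤ X →
    ∀ M : ℝ, 1 ≤ M → M ≤ X →
    ∀ F : Finset (Fin 3 → ℕ), (∀ t ∈ F, Tr t ∧ Scale k l t ∧
      ∃ S : Finset ℕ, (∀ q ∈ S, q.Prime) ∧ Good k X l S t ∧
        ∑ q ∈ S, Real.log q ≤ Real.log M) →
    (F.card : ℝ) ≤ D * (M * X ^ (2 / (k : ℝ))) * l := by
  classical
  have hk0 : (0 : ℝ) < k := by positivity
  have hk1 : 1 ≤ k := by omega
  have hk2 : (3 : ℝ) ≤ k := by exact_mod_cast hk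
  obtain ⟨L0, hL0, hsm⟩ := sq_log_small hη (T := 100 * (k : ℝ)) (by positivity)
  obtain ⟨D1, hD1, hso⟩ := sum_omega ((2 : ℝ) ^ (18 * k + 1)) (one_le_pow₀ (by norm_num))
    (1 / (k : ℝ)) (by positivity)
  refine ⟨28 * 126 * (4 * k ^ 2) * 2 ^ (18 * k) * D1, by positivity, L0, hL0, ?_⟩
  intro X hX hXL l hl hlX M0 hM1 hM0X F hF
  have hX0 : 0 < X := by linarith
  obtain ⟨L, hLd⟩ : ∃ L, L = Real.log X := ⟨_, rfl⟩
  rw [← hLd] at hXL hl
  have hL3 : 3 ≤ L := hL0.trans hXL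
  obtain ⟨hlog1, hLl, hT⟩ := hsm L hXL l hl
  have hl3 : 3 ≤ l := hL3.trans hLl
  have hl0 : 0 < l := by linarith
  have hlogL : Real.log l ≤ L := by
    rw [hLd]; exact Real.log_le_log hl0 hlX
  have hk2l : 2 * (k : ℝ) ≤ l := by
    refine le_trans ?_ hT
    have h1 : 1 ≤ L ^ 2 * Real.log l := by
      have : (1 : ℝ) ≤ L ^ 2 := by nlinarith
      nlinarith
    nlinarith
  obtain ⟨n, hn⟩ : ∃ n : ℕ, n = ⌈20 * L * Real.log l⌉₊ := ⟨_, rfl⟩
  obtain ⟨K, hK⟩ : ∃ K : ℕ, K = ⌊2 * l⌋₊ := ⟨_, rfl⟩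
  obtain ⟨E, hE⟩ : ∃ E : ℕ, E = ⌊5 * l⌋₊ := ⟨_, rfl⟩
  have hn1 : 20 * L * Real.log l ≤ n := by rw [hn]; exact Nat.le_ceil _
  have hnn : 0 ≤ 20 * L * Real.log l := by positivity
  have hn2 : (n : ℝ) ≤ 20 * L * Real.log l + 1 := by
    rw [hn]; exact (Nat.ceil_lt_add_one hnn).le
  have hn0 : 0 < n := by
    rw [hn, Nat.ceil_pos]
    positivity
  have hKl : (K : ℝ) ≤ 2 * l := by rw [hK]; exact Nat.floor_le (by positivity)
  have hEl : (E : ℝ) ≤ 5 * l := by rw [hE]; exact Nat.floor_le (by positivity)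
  obtain ⟨hc, hb⟩ := numeric hk1 hL3 hlog1 hLl hT hn1 hn2 hKl hEl hX hLd.symm
  have hl2a := Real.log_two_gt_d9
  have hl2b := Real.log_two_lt_d9
  have hsc : ∀ t ∈ F, Real.log (t 2) ≤ (1 + 1 / 12) * l := by
    intro t ht
    obtain ⟨_, h2, _⟩ := hF t ht
    refine h2.2.trans (mul_le_mul_of_nonneg_right ?_ hl0.le)
    have : 1 / (4 * (k : ℝ)) ≤ 1 / 12 := one_div_le_one_div_of_le (by norm_num) (by linarith)
    linarith
  have hKt : ∀ t ∈ F, t 2 ≤ 2 ^ K := by
    intro t ht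
    have h1 := hsc t ht
    have h2 : (0 : ℝ) < t 2 := by exact_mod_cast (hF t ht).1.pos' 2
    have h3 : 2 * l - 1 < K := by rw [hK]; exact Nat.sub_one_lt_floor _
    have h4 : Real.log (t 2) ≤ Real.log ((2 : ℝ) ^ K) := by
      rw [Real.log_pow]
      have h5 : (2 * l - 1) * Real.log 2 ≤ (K : ℝ) * Real.log 2 :=
        mul_le_mul_of_nonneg_right h3.le (by linarith)
      have h6 : (1 + 1 / 12) * l ≤ (2 * l - 1) * Real.log 2 := by nlinarith
      linarith
    have h5 := (Real.log_le_log_iff h2 (by positivity)).1 h4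
    exact_mod_cast h5
  have hEt : ∀ t ∈ F, ∀ p, vv t p ≤ E := by
    intro t ht p
    obtain ⟨h1, _, _⟩ := hF t ht
    have h2 := log_N3_le h1
    have h3 := hsc t ht
    rw [hE]
    refine Nat.le_floor ?_
    by_cases hp : p.Prime
    · have hN : (N3 t) ≠ 0 := h1.N3_pos.ne'
      have h4 : p ^ vv t p ≤ N3 t := Nat.ordProj_le p hN
      have h5 : 2 ^ vv t p ≤ N3 t := (Nat.pow_le_pow_left hp.two_le _).trans h4
      have h6 : Real.log ((2 : ℝ) ^ vv t p) ≤ Real.log (N3 t) :=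
        Real.log_le_log (by positivity) (by exact_mod_cast h5)
      rw [Real.log_pow] at h6
      have h7 : (vv t p : ℝ) * 0.69 ≤ (vv t p : ℝ) * Real.log 2 :=
        mul_le_mul_of_nonneg_left (by linarith) (Nat.cast_nonneg _)
      nlinarith
    · have : vv t p = 0 := Nat.factorization_eq_zero_of_not_prime _ hp
      rw [this]
      push_cast
      positivity
  obtain ⟨M, hM⟩ : ∃ M : ℕ, M = ⌊M0⌋₊ := ⟨_, rfl⟩
  have hMM0 : (M : ℝ) ≤ M0 := by rw [hM]; exact Nat.floor_le (by linarith)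
  have hcount := count hk hk2l hn0 (hMM0.trans hM0X) F
    (fun t ht => ⟨(hF t ht).1, (hF t ht).2.1⟩)
    (fun t ht => by
      obtain ⟨S, s1, s2, s3⟩ := (hF t ht).2.2
      refine ⟨S, s1, s2, ?_⟩
      rw [hM]
      refine Nat.le_floor ?_
      have hpos : 0 < ∏ q ∈ S, q := Finset.prod_pos fun q hq => (s1 q hq).pos
      rw [← Real.log_le_log_iff (by exact_mod_cast hpos) (by linarith), log_prod_primes s1]
      exact s3)
    hKt hEt hc hb
  have hEn : (((E + 1) * n : ℕ) : ℝ) ≤ 126 * L ^ 2 * l := by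
    push_cast
    have h1 : (E : ℝ) + 1 ≤ 6 * l := by linarith
    have h2 : (n : ℝ) ≤ 21 * L ^ 2 := by
      have h3 : L * Real.log l ≤ L * L := mul_le_mul_of_nonneg_left hlogL (by linarith)
      nlinarith
    calc ((E : ℝ) + 1) * n ≤ (6 * l) * (21 * L ^ 2) :=
          mul_le_mul h1 h2 (Nat.cast_nonneg _) (by positivity)
      _ = _ := by ring
  have hEn1 : (1 : ℝ) ≤ 126 * L ^ 2 * l := by nlinarith
  have h1 : (F.card : ℝ) ≤ ∑ m ∈ Finset.Icc 1 M, (28 * (126 * L ^ 2 * l) * 2 ^ (18 * k)) *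
      ((2 : ℝ) ^ (18 * k + 1)) ^ m.primeFactors.card := by
    have h2 : (F.card : ℝ) ≤ ((∑ m ∈ Finset.Icc 1 M, 2 ^ (18 * k * (m.primeFactors.card + 1)) *
        (1 + 27 * (2 ^ m.primeFactors.card * ((E + 1) * n))) : ℕ) : ℝ) := by
      exact_mod_cast hcount
    refine h2.trans ?_
    rw [Nat.cast_sum]
    refine Finset.sum_le_sum fun m _ => ?_
    rw [Nat.cast_mul, Nat.cast_add, Nat.cast_mul, Nat.cast_mul (2 ^ m.primeFactors.card)]
    push_cast
    push_cast at hEn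
    have e1 : (2 : ℝ) ^ (18 * k * (m.primeFactors.card + 1)) =
        2 ^ (18 * k) * (2 ^ (18 * k)) ^ m.primeFactors.card := by
      rw [← pow_mul, ← pow_add]
      congr 1
      ring
    have e2 : ((2 : ℝ) ^ (18 * k + 1)) ^ m.primeFactors.card =
        (2 ^ (18 * k)) ^ m.primeFactors.card * 2 ^ m.primeFactors.card := by
      rw [pow_succ, mul_pow]
    rw [e1, e2]
    have e3 : (1 : ℝ) + 27 * (2 ^ m.primeFactors.card * (((E : ℝ) + 1) * n)) ≤
        28 * (126 * L ^ 2 * l) * 2 ^ m.primeFactors.card := by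
      have p1 : (1 : ℝ) ≤ 2 ^ m.primeFactors.card := one_le_pow₀ (by norm_num)
      have p2 : (2 : ℝ) ^ m.primeFactors.card * (((E : ℝ) + 1) * n) ≤
          2 ^ m.primeFactors.card * (126 * L ^ 2 * l) :=
        mul_le_mul_of_nonneg_left hEn (by positivity)
      have p3 : 1 * 1 ≤ (2 : ℝ) ^ m.primeFactors.card * (126 * L ^ 2 * l) :=
        mul_le_mul p1 hEn1 (by norm_num) (by positivity)
      linarith
    calc (2 : ℝ) ^ (18 * k) * (2 ^ (18 * k)) ^ m.primeFactors.card *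
          (1 + 27 * (2 ^ m.primeFactors.card * (((E : ℝ) + 1) * n))) ≤
        2 ^ (18 * k) * (2 ^ (18 * k)) ^ m.primeFactors.card *
          (28 * (126 * L ^ 2 * l) * 2 ^ m.primeFactors.card) :=
          mul_le_mul_of_nonneg_left e3 (by positivity)
      _ = _ := by ring
  rw [← Finset.mul_sum] at h1
  have h2 := hso M
  have hM00 : 0 < M0 := by linarith
  have hMX : (M : ℝ) ^ (1 + 1 / (k : ℝ)) ≤ M0 * X ^ (1 / (k : ℝ)) := by
    have h3 : (M : ℝ) ^ (1 + 1 / (k : ℝ)) ≤ M0 ^ (1 + 1 / (k : ℝ)) :=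
      Real.rpow_le_rpow (Nat.cast_nonneg _) hMM0 (by positivity)
    refine h3.trans ?_
    rw [Real.rpow_add hM00, Real.rpow_one]
    refine mul_le_mul_of_nonneg_left ?_ hM00.le
    exact Real.rpow_le_rpow hM00.le hM0X (by positivity)
  have hL2 : L ^ 2 ≤ 4 * k ^ 2 * X ^ (1 / (k : ℝ)) := by
    rw [hLd]; exact log_sq_le hk1 hX
  have hXk : X ^ (1 / (k : ℝ)) * (M0 * X ^ (1 / (k : ℝ))) = M0 * X ^ (2 / (k : ℝ)) := by
    have : X ^ (2 / (k : ℝ)) = X ^ (1 / (k : ℝ)) * X ^ (1 / (k : ℝ)) := by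
      rw [← Real.rpow_add hX0]
      congr 1
      ring
    rw [this]
    ring
  calc (F.card : ℝ) ≤ (28 * (126 * L ^ 2 * l) * 2 ^ (18 * k)) *
        (D1 * (M : ℝ) ^ (1 + 1 / (k : ℝ))) :=
        h1.trans (mul_le_mul_of_nonneg_left h2 (by positivity))
    _ ≤ (28 * (126 * (4 * k ^ 2 * X ^ (1 / (k : ℝ))) * l) * 2 ^ (18 * k)) *
        (D1 * (M0 * X ^ (1 / (k : ℝ)))) := by
        refine mul_le_mul ?_ (mul_le_mul_of_nonneg_left hMX hD1.le) (by positivity)
          (by positivity)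
        refine mul_le_mul_of_nonneg_right ?_ (by positivity)
        refine mul_le_mul_of_nonneg_left ?_ (by norm_num)
        exact mul_le_mul_of_nonneg_right (mul_le_mul_of_nonneg_left hL2 (by norm_num)) hl0.le
    _ = 28 * 126 * (4 * k ^ 2) * 2 ^ (18 * k) * D1 *
        (X ^ (1 / (k : ℝ)) * (M0 * X ^ (1 / (k : ℝ)))) * l := by ring
    _ = _ := by rw [hXk]

end Pool.Agent.TH314.SM
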