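import Pool.Agent.TH314.SM.Gen

/-! Small heights, with a general bound for the product of the radicals of two sides
(helper314). -/

set_option autoImplicit false

namespace Pool.Agent.TH314.SM

open Finset
open Pool.Agent.TH867.SR

/-- triples of small height for which the radicals of two given sides have product `≤ e ^ K` -/
theorem pair_gen (ε : ℝ) (hε : 0 < ε) : ∃ η : ℝ, 0 < η ∧ ∃ L1 : ℝ, 1 ≤ L1 ∧ ∀ X : ℝ, 1 ≤ X →
    L1 ≤ Real.log X → ∀ K : ℝ, 0 ≤ K → K ≤ Real.log X → ∀ i j : Fin 3, i ≠ j →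
    ∀ F : Finset (Fin 3 → ℕ), (∀ t ∈ F, Tr t ∧ rr t i + rr t j ≤ K ∧
      Real.log (t 2) ≤ Real.log X ^ (2 + η)) →
    (F.card : ℝ) ≤ Real.exp (K + ε * Real.log X) := by
  classical
  obtain ⟨θ, hθ⟩ : ∃ θ : ℝ, θ = ε / 2 := ⟨_, rfl⟩
  have hθ0 : 0 < θ := by rw [hθ]; positivity
  obtain ⟨β, hβ⟩ : ∃ β : ℝ, β = 1 / (1 + θ / 2) := ⟨_, rfl⟩
  have hβ0 : 0 < β := by rw [hβ]; positivity
  have hβ1 : β ≤ 1 := by
    rw [hβ, div_le_one (by positivity)]; linarith
  have haβ : 1 < (1 + θ) * β := by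
    rw [hβ, mul_one_div, lt_div_iff₀ (by positivity)]; linarith
  obtain ⟨η, hη⟩ : ∃ η : ℝ, η = θ / 4 := ⟨_, rfl⟩
  have hη0 : 0 < η := by rw [hη]; positivity
  have hγ : (1 + η) * β < 1 := by
    rw [hβ, mul_one_div, div_lt_one (by positivity), hη]; linarith
  obtain ⟨Z, hZ⟩ : ∃ Z : ℝ, Z = ∑' n : ℕ, ((n : ℝ) ^ ((1 + θ) * β))⁻¹ := ⟨_, rfl⟩
  have hZ0 : 0 ≤ Z := by rw [hZ]; exact tsum_nonneg fun n => by positivity
  -- the threshold for `L`
  obtain ⟨W, hW⟩ : ∃ W : ℝ, W = (32 / ε) ^ β * Z / β * (16 / ε) := ⟨_, rfl⟩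
  have hW0 : 0 ≤ W := by rw [hW]; positivity
  obtain ⟨γ, hγd⟩ : ∃ γ : ℝ, γ = 1 - (1 + η) * β := ⟨_, rfl⟩
  have hγ0 : 0 < γ := by rw [hγd]; linarith
  refine ⟨η, hη0, max 1 (W ^ (1 / γ)), le_max_left _ _, fun X hX hL K hK0 hK i j hij F hF => ?_⟩
  obtain ⟨L, hLd⟩ : ∃ L, L = Real.log X := ⟨_, rfl⟩
  rw [← hLd] at hL hF hK ⊢
  have hL1 : 1 ≤ L := (le_max_left _ _).trans hL
  have hL0 : 0 < L := by linarith
  have hX0 : 0 < X := by linarith
  have hWL : W ≤ L ^ γ := by
    have h1 : (W ^ (1 / γ)) ^ γ ≤ L ^ γ :=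
      Real.rpow_le_rpow (by positivity) ((le_max_right _ _).trans hL) hγ0.le
    rwa [← Real.rpow_mul hW0, one_div_mul_cancel hγ0.ne', Real.rpow_one] at h1
  obtain ⟨σ, hσ⟩ : ∃ σ : ℝ, σ = ε / 16 * L ^ (-(1 + η)) := ⟨_, rfl⟩
  have hσ0 : 0 < σ := by rw [hσ]; positivity
  obtain ⟨N, hN⟩ : ∃ N : ℕ, N = ⌊Real.exp (L ^ (2 + η))⌋₊ := ⟨_, rfl⟩
  have hN1 : 1 ≤ N := by
    rw [hN]
    refine Nat.le_floor ?_
    rw [Nat.cast_one, Real.one_le_exp_iff]
    positivity
  have hlogN : Real.log N ≤ L ^ (2 + η) := by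
    rw [Real.log_le_iff_le_exp (by exact_mod_cast hN1), hN]
    exact Nat.floor_le (Real.exp_pos _).le
  have hsum := rankin_sum hσ0 hβ0 hβ1 haβ N hN1
  rw [← hZ] at hsum
  have hexp : σ * Real.log N + (2 / σ) ^ β * Z / β ≤ ε / 8 * L := by
    have h1 : σ * Real.log N ≤ ε / 16 * L := by
      have h2 : σ * Real.log N ≤ σ * L ^ (2 + η) := mul_le_mul_of_nonneg_left hlogN hσ0.le
      have h3 : σ * L ^ (2 + η) = ε / 16 * L := by
        rw [hσ, mul_assoc, ← Real.rpow_add hL0]
        have : -(1 + η) + (2 + η) = 1 := by ring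
        rw [this, Real.rpow_one]
      linarith
    have h4 : (2 / σ) ^ β * Z / β ≤ ε / 16 * L := by
      have e1 : 2 / σ = 32 / ε * L ^ (1 + η) := by
        rw [hσ, Real.rpow_neg hL0.le]
        field_simp
        norm_num
      rw [e1, Real.mul_rpow (by positivity) (by positivity), ← Real.rpow_mul hL0.le]
      have e2 : L = L ^ ((1 + η) * β) * L ^ γ := by
        rw [← Real.rpow_add hL0, hγd]
        have : (1 + η) * β + (1 - (1 + η) * β) = 1 := by ring
        rw [this, Real.rpow_one]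
      have e3 : (32 / ε) ^ β * L ^ ((1 + η) * β) * Z / β =
          ε / 16 * (L ^ ((1 + η) * β) * W) := by
        rw [hW]
        field_simp
      rw [e3]
      conv_rhs => rw [e2]
      refine mul_le_mul_of_nonneg_left ?_ (by positivity)
      exact mul_le_mul_of_nonneg_left hWL (by positivity)
    linarith
  obtain ⟨V, hV⟩ : ∃ V : ℝ, V = ∑ s ∈ Finset.Icc 1 N, ∏ p ∈ s.primeFactors,
    (p : ℝ) ^ (-(1 + θ)) := ⟨_, rfl⟩
  rw [← hV] at hsum
  have hV0 : 0 ≤ V := by
    rw [hV]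
    exact Finset.sum_nonneg fun s _ => Finset.prod_nonneg fun p _ => by positivity
  have hV1 : V ≤ Real.exp (ε / 8 * L) := hsum.trans (Real.exp_le_exp.2 hexp)
  have hV2 : V ^ 2 ≤ Real.exp (ε / 4 * L) := by
    calc V ^ 2 ≤ (Real.exp (ε / 8 * L)) ^ 2 := pow_le_pow_left₀ hV0 hV1 2
      _ = Real.exp (ε / 4 * L) := by
          rw [← Real.exp_nat_mul]
          congr 1
          push_cast
          ring
  have h1 := pair_count (a := 1 + θ) (L := 3 / 2 * K) (by positivity) N hij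
    F (fun t ht => by
      obtain ⟨c1, c2, c3⟩ := hF t ht
      refine ⟨c1, ?_, by linarith⟩
      rw [hN]
      refine Nat.le_floor ?_
      rw [← Real.log_le_iff_le_exp (by exact_mod_cast c1.pos' 2)]
      exact c3)
  rw [← hV] at h1
  refine h1.trans ?_
  calc Real.exp (2 / 3 * (1 + θ) * (3 / 2 * K)) * V ^ 2 ≤
      Real.exp (2 / 3 * (1 + θ) * (3 / 2 * K)) * Real.exp (ε / 4 * L) :=
        mul_le_mul_of_nonneg_left hV2 (Real.exp_pos _).le
    _ = Real.exp (2 / 3 * (1 + θ) * (3 / 2 * K) + ε / 4 * L) := by rw [← Real.exp_add]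
    _ ≤ Real.exp (K + ε * L) := by
        refine Real.exp_le_exp.2 ?_
        have e1 : θ * K ≤ θ * L := mul_le_mul_of_nonneg_left hK hθ0.le
        have e2 : 2 / 3 * (1 + θ) * (3 / 2 * K) = K + θ * K := by ring
        rw [e2]
        have e3 : θ * L = ε / 2 * L := by rw [hθ]
        have e4 : 0 ≤ ε * L := by positivity
        linarith

/-- the radical of a side is at most the side -/
theorem rr_le_log {t : Fin 3 → ℕ} (h : Tr t) (j : Fin 3) : rr t j ≤ Real.log (t j) := by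
  rw [← side_sum h j]
  unfold rr
  refine Finset.sum_le_sum fun q hq => ?_
  have hp := Nat.prime_of_mem_primeFactors hq
  have h1 : 1 ≤ vv t q := by
    rw [h.vv_eq hp (Nat.dvd_of_mem_primeFactors hq)]
    exact (hp.factorization_pos_of_dvd (h.pos' j).ne' (Nat.dvd_of_mem_primeFactors hq))
  have h2 : (1 : ℝ) ≤ (vv t q : ℝ) := by exact_mod_cast h1
  have h3 : 0 ≤ Real.log (q : ℝ) := log_prime_nonneg hp
  nlinarith

/-- the choice of the prescribed primes when the smallest member is small -/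
theorem choice_small {k : ℕ} (hk : 2 ≤ k) {X l : ℝ} (hl : 2 ≤ l) {t : Fin 3 → ℕ} (h : Tr t)
    (hs : Scale k l t) (hX : ∀ j, ∀ p ∈ (t j).primeFactors, (p : ℝ) ≤ X) :
    ∃ S : Finset ℕ, (∀ q ∈ S, q.Prime) ∧ Good k X l S t ∧
      ∑ q ∈ S, Real.log q ≤ (rr t 0 + rr t 1 + rr t 2 + rr t 0) / 2 +
        1 / k * (rr t 0 + rr t 1 + rr t 2) := by
  classical
  have hk0 : (0 : ℝ) < k := by positivity
  have hk1 : 1 ≤ k := by omega
  have l2b := Real.log_two_lt_d9
  have hT : 2 ≤ Real.log (t 2) := hl.trans hs.1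
  have r0 := rr_nonneg t 0
  have r1 := rr_nonneg t 1
  have r2 := rr_nonneg t 2
  have h21 : Real.log (t 2) / 2 ≤ Real.log (t 1) := by
    have := log_one_ge h
    linarith
  have h22 : Real.log (t 2) / 2 ≤ Real.log (t 2) := by linarith
  obtain ⟨p1, hp1, Q1, hQ1, w1, c1⟩ := side_part hk1 h (j := 1) (by linarith) hk h21
  obtain ⟨p2, hp2, Q2, hQ2, w2, c2⟩ := side_part hk1 h (j := 2) (by linarith) hk h22
  have k2 : (2 : ℝ) / k = 2 * (1 / k) := by ring
  rw [k2] at c1 c2
  have kk : (0 : ℝ) < 1 / k := by positivity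
  obtain ⟨κ, hκ⟩ : ∃ κ : ℝ, κ = 1 / k := ⟨_, rfl⟩
  rw [← hκ] at c1 c2 kk ⊢
  have m0 := mul_nonneg kk.le r0
  have m1 := mul_nonneg kk.le r1
  have m2 := mul_nonneg kk.le r2
  obtain ⟨S12, g1, g2, g3⟩ := good_of (X := X) h hs (A := 1) (B := 2) (C := 0) (by decide)
    (by decide) (by decide) hp2 (hX 2 p2 hp2) hQ1 w1
  obtain ⟨S21, f1, f2, f3⟩ := good_of (X := X) h hs (A := 2) (B := 1) (C := 0) (by decide)
    (by decide) (by decide) hp1 (hX 1 p1 hp1) hQ2 w2
  by_contra hcon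
  push Not at hcon
  have a2 := hcon S12 g1 g2
  have a3 := hcon S21 f1 f2
  rw [g3] at a2
  rw [f3] at a3
  nlinarith

/-- **heights at most the radical bound** -/
theorem mid_upper (ε : ℝ) (hε : 0 < ε) : ∃ D : ℝ, 0 < D ∧ ∃ L0 : ℝ, 1 ≤ L0 ∧ ∀ X H : ℝ,
    1 ≤ X → L0 ≤ Real.log X → 1 ≤ H → H ≤ X → ∀ Y : ℝ, 0 ≤ Y → Y ≤ Real.log X / 3 →
    ∀ F : Finset (Fin 3 → ℕ), (∀ t ∈ F, Tr t ∧ rr t 0 + rr t 1 + rr t 2 ≤ Real.log X ∧
      rr t 0 ≤ Y ∧ Real.log (t 2) ≤ H) →
    (F.card : ℝ) ≤ D * Real.exp ((Real.log X + Y) / 2 + ε * Real.log X) * H := by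
  classical
  obtain ⟨k0, hk0⟩ : ∃ k : ℕ, 3 / ε ≤ k := exists_nat_ge _
  obtain ⟨k, hkd⟩ : ∃ k : ℕ, k = k0 + 3 := ⟨_, rfl⟩
  have hk3 : 3 ≤ k := by omega
  have hk1 : 1 ≤ k := by omega
  have hkp : (0 : ℝ) < k := by positivity
  have hkε : 3 / (k : ℝ) ≤ ε := by
    have h1 : 3 / ε ≤ (k : ℝ) := hk0.trans (by rw [hkd]; push_cast; linarith)
    rw [div_le_iff₀ hε] at h1
    rw [div_le_iff₀ hkp]
    linarith
  obtain ⟨η, hη, L1, hL1, hsmall⟩ := pair_gen ε hε
  obtain ⟨D, hD, L0, hL0, hscale⟩ := scale_count hk3 hη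
  obtain ⟨L2, hL2, hsq⟩ := sq_log_small hη (T := 100 * (k : ℝ)) (by positivity)
  refine ⟨2 + D * (4 * k + 1), by positivity, max L1 (max L0 L2),
    (hL1.trans (le_max_left _ _)), fun X H hX hLX hH hHX Y hY0 hY F hF => ?_⟩
  have hX0 : 0 < X := by linarith
  have b1 : L1 ≤ Real.log X := (le_max_left _ _).trans hLX
  have b2 : L0 ≤ Real.log X := ((le_max_left _ _).trans (le_max_right _ _)).trans hLX
  have b3 : L2 ≤ Real.log X := ((le_max_right _ _).trans (le_max_right _ _)).trans hLX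
  obtain ⟨l0, hl0⟩ : ∃ l0, l0 = Real.log X ^ (2 + η) := ⟨_, rfl⟩
  obtain ⟨c1, c2, c3⟩ := hsq (Real.log X) b3 l0 hl0.symm.le
  have hlX3 : 3 ≤ Real.log X := hL0.trans b2
  have hl0p : 0 < l0 := by linarith
  obtain ⟨U, hU⟩ : ∃ U, U = Real.exp ((Real.log X + Y) / 2 + ε * Real.log X) := ⟨_, rfl⟩
  rw [← hU]
  have hU0 : 0 < U := by rw [hU]; exact Real.exp_pos _
  set F1 := F.filter fun t => Real.log (t 2) ≤ l0 with hF1
  set F2 := F.filter fun t => ¬ Real.log (t 2) ≤ l0 with hF2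
  have hcardN : F.card = F1.card + F2.card :=
    (Finset.card_filter_add_card_filter_not (s := F) (fun t => Real.log (t 2) ≤ l0)).symm
  have hcard : (F.card : ℝ) = F1.card + F2.card := by
    rw [hcardN, Nat.cast_add]
  have d1 : (F1.card : ℝ) ≤ 2 * U := by
    have hK0 : 0 ≤ (Real.log X + Y) / 2 := by linarith
    have hKX : (Real.log X + Y) / 2 ≤ Real.log X := by linarith
    have hp : ∀ j : Fin 3, (0 : Fin 3) ≠ j →
        ((F1.filter fun t => rr t 0 + rr t j ≤ (Real.log X + Y) / 2).card : ℝ) ≤ U := by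
      intro j hj
      rw [hU]
      refine hsmall X hX b1 _ hK0 hKX 0 j hj _ fun t ht => ?_
      obtain ⟨e1, e2⟩ := Finset.mem_filter.1 ht
      obtain ⟨e3, e4⟩ := Finset.mem_filter.1 e1
      exact ⟨(hF t e3).1, e2, by rw [← hl0]; exact e4⟩
    have hcover : F1 ⊆ (F1.filter fun t => rr t 0 + rr t 1 ≤ (Real.log X + Y) / 2) ∪
        (F1.filter fun t => rr t 0 + rr t 2 ≤ (Real.log X + Y) / 2) := by
      intro t ht
      obtain ⟨e3, e4⟩ := Finset.mem_filter.1 ht
      obtain ⟨a1, a2, a3, a4⟩ := hF t e3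
      by_cases h1 : rr t 0 + rr t 1 ≤ (Real.log X + Y) / 2
      · exact Finset.mem_union_left _ (Finset.mem_filter.2 ⟨ht, h1⟩)
      · refine Finset.mem_union_right _ (Finset.mem_filter.2 ⟨ht, ?_⟩)
        push Not at h1
        linarith
    have h1 := (Finset.card_le_card hcover).trans (Finset.card_union_le _ _)
    have h2 : (F1.card : ℝ) ≤
        ((F1.filter fun t => rr t 0 + rr t 1 ≤ (Real.log X + Y) / 2).card : ℝ) +
        ((F1.filter fun t => rr t 0 + rr t 2 ≤ (Real.log X + Y) / 2).card : ℝ) := by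
      exact_mod_cast h1
    have h3 := hp 1 (by decide)
    have h4 := hp 2 (by decide)
    linarith
  have hMU : Real.exp ((Real.log X + Y) / 2 + 1 / k * Real.log X) * X ^ (2 / (k : ℝ)) ≤ U := by
    rw [hU, Real.rpow_def_of_pos hX0, ← Real.exp_add]
    refine Real.exp_le_exp.2 ?_
    have e1 : 1 / (k : ℝ) * Real.log X + Real.log X * (2 / k) = 3 / k * Real.log X := by ring
    have e2 : 3 / (k : ℝ) * Real.log X ≤ ε * Real.log X :=
      mul_le_mul_of_nonneg_right hkε (by linarith)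
    linarith
  have d2 : (F2.card : ℝ) ≤ D * (4 * k + 1) * U * H := by
    rcases le_or_gt l0 H with hcase | hcase
    · obtain ⟨J, hJ, G, hG, hGc⟩ := scales hk1 hl0p hcase F2 (fun t ht => by
        obtain ⟨e1, e2⟩ := Finset.mem_filter.1 ht
        exact ⟨(not_le.1 e2).le, (hF t e1).2.2.2⟩)
      have hρ := rho_gt hk1
      have hGj : ∀ j ∈ Finset.range (J + 1), ((G j).card : ℝ) ≤
          D * U * (l0 * rho k ^ j) := by
        intro j hj
        have p1 : 1 ≤ rho k ^ j := one_le_pow₀ hρ.le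
        have p2 : rho k ^ j ≤ rho k ^ J := pow_le_pow_right₀ hρ.le
          (Nat.lt_succ_iff.1 (Finset.mem_range.1 hj))
        have p3 : l0 * rho k ^ j ≤ X := by
          have := mul_le_mul_of_nonneg_left p2 hl0p.le
          linarith
        have p4 : l0 ≤ l0 * rho k ^ j := by nlinarith
        have p5 : (2 : ℝ) ≤ l0 * rho k ^ j := by linarith
        have hk2' : (3 : ℝ) ≤ k := by exact_mod_cast hk3
        have hkk : 1 / (k : ℝ) ≤ 1 / 3 := one_div_le_one_div_of_le (by norm_num) hk2'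
        have q0 : 0 ≤ (Real.log X + Y) / 2 + 1 / k * Real.log X := by
          have : 0 ≤ 1 / (k : ℝ) * Real.log X := by positivity
          linarith
        have q1 : (Real.log X + Y) / 2 + 1 / k * Real.log X ≤ Real.log X := by
          have : 1 / (k : ℝ) * Real.log X ≤ 1 / 3 * Real.log X :=
            mul_le_mul_of_nonneg_right hkk (by linarith)
          linarith
        have h1 := hscale X hX b2 (l0 * rho k ^ j) (by rw [← hl0]; exact p4) p3
          (Real.exp ((Real.log X + Y) / 2 + 1 / k * Real.log X))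
          (Real.one_le_exp q0)
          (by
            have := Real.exp_le_exp.2 q1
            rwa [Real.exp_log hX0] at this) (G j)
          (fun t ht => by
            obtain ⟨f1, f2⟩ := hG j t ht
            obtain ⟨e1, e2⟩ := Finset.mem_filter.1 f1
            obtain ⟨a1, a2, a3, a4⟩ := hF t e1
            refine ⟨a1, f2, ?_⟩
            have hr0 := rr_nonneg t 0
            have hr1 := rr_nonneg t 1
            have hr2 := rr_nonneg t 2
            have hpX : ∀ j, ∀ p ∈ (t j).primeFactors, (p : ℝ) ≤ X := by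
              intro j p hp
              have hp0 : (0 : ℝ) < p := by
                exact_mod_cast (Nat.prime_of_mem_primeFactors hp).pos
              have h4 : Real.log p ≤ rr t j :=
                Finset.single_le_sum (f := fun q : ℕ => Real.log (q : ℝ))
                  (fun q hq => log_prime_nonneg (Nat.prime_of_mem_primeFactors hq)) hp
              have h5 : rr t j ≤ Real.log X := by
                refine le_trans ?_ a2
                fin_cases j
                · show rr t 0 ≤ _; linarith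
                · show rr t 1 ≤ _; linarith
                · show rr t 2 ≤ _; linarith
              exact (Real.log_le_log_iff hp0 hX0).1 (h4.trans h5)
            obtain ⟨S, s1, s2, s3⟩ := choice_small (k := k) (by omega) p5 a1 f2 hpX
            refine ⟨S, s1, s2, s3.trans ?_⟩
            rw [Real.log_exp]
            have : 1 / (k : ℝ) * (rr t 0 + rr t 1 + rr t 2) ≤ 1 / k * Real.log X :=
              mul_le_mul_of_nonneg_left a2 (by positivity)
            linarith)
        refine h1.trans (mul_le_mul_of_nonneg_right (mul_le_mul_of_nonneg_left hMU hD.le)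
          (by positivity))
      have h3 : (F2.card : ℝ) ≤ ∑ j ∈ Finset.range (J + 1), ((G j).card : ℝ) := by
        exact_mod_cast hGc
      refine (h3.trans (Finset.sum_le_sum hGj)).trans ?_
      rw [← Finset.mul_sum]
      refine (mul_le_mul_of_nonneg_left (geom_le hk1 hl0p hJ) (by positivity)).trans
        (le_of_eq ?_)
      ring
    · have : F2 = ∅ := by
        rw [Finset.eq_empty_iff_forall_notMem]
        intro t ht
        obtain ⟨e1, e2⟩ := Finset.mem_filter.1 ht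
        have := (hF t e1).2.2.2
        linarith [not_le.1 e2]
      rw [this, Finset.card_empty, Nat.cast_zero]
      positivity
  have d3 : 2 * U ≤ 2 * U * H := by nlinarith
  rw [hcard]
  linarith

end Pool.Agent.TH314.SM
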